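import Pool.Agent.Helper48.CR.Goals
import Pool.Agent.Helper56.PrimeAsymp

set_option autoImplicit false

/-! Packet NUM1 of MP_69be96_nt. -/

open Finset Filter Topology
open Pool.Agent.Helper48.CR

namespace Pool.Agent.Helper53.CR

lemma log_pow_le (C : ℝ) (n : ℕ) : ∀ᶠ r : ℕ in atTop, C * Real.log r ^ n ≤ r := by
  have h1 : (fun x : ℝ => C * Real.log x ^ n) =o[atTop] (fun x : ℝ => x) :=
    (Real.isLittleO_pow_log_id_atTop (n := n)).const_mul_left C
  have h2 : ∀ᶠ x : ℝ in atTop, C * Real.log x ^ n ≤ x := by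
    filter_upwards [h1.def (c := 1) one_pos, eventually_ge_atTop 0] with x hx hx0
    rw [one_mul, Real.norm_eq_abs, Real.norm_eq_abs, abs_of_nonneg hx0] at hx
    exact (le_abs_self _).trans hx
  exact tendsto_natCast_atTop_atTop.eventually h2

lemma log_ge (B : ℝ) : ∀ᶠ r : ℕ in atTop, B ≤ Real.log r :=
  (Real.tendsto_log_atTop.comp tendsto_natCast_atTop_atTop).eventually_ge_atTop B

lemma primeCounting_le (r : ℕ) :
    Nat.primeCounting (2 * r) ≤ Nat.primeCounting r + (pr r (2 * r)).card := by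
  have h : ∀ n, Nat.primeCounting n = ((range (n + 1)).filter Nat.Prime).card := by
    intro n
    rw [Nat.primeCounting, Nat.primeCounting', Nat.count_eq_card_filter_range]
  rw [h, h]
  refine le_trans (card_le_card ?_) (card_union_le _ _)
  intro p hp
  simp only [mem_filter, mem_range, mem_union, pr, mem_Ioc] at hp ⊢
  by_cases h1 : p < r + 1
  · exact Or.inl ⟨h1, hp.2⟩
  · exact Or.inr ⟨⟨by omega, by omega⟩, hp.2⟩

/-- many primes in `(r, 2 r]` -/
lemma many_primes : ∀ᶠ r : ℕ in atTop, (r : ℝ) / (2 * Real.log r) ≤ ((pr r (2 * r)).card : ℝ) := by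
  have hA : Tendsto (fun r : ℕ => (Nat.primeCounting r : ℝ) * Real.log r / r) atTop (𝓝 1) := by
    have h := Helper56.pi_mul_log_div_tendsto.comp tendsto_natCast_atTop_atTop
    refine h.congr fun r => ?_
    simp [Function.comp]
  have hB : Tendsto (fun r : ℕ => (Nat.primeCounting (2 * r) : ℝ) * Real.log (2 * r : ℕ) / (2 * r : ℕ))
      atTop (𝓝 1) :=
    hA.comp (tendsto_id.const_mul_atTop' (by norm_num : (0 : ℕ) < 2))
  have h1 : ∀ᶠ r : ℕ in atTop, (Nat.primeCounting r : ℝ) * Real.log r / r < 11 / 10 :=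
    hA.eventually_lt_const (by norm_num)
  have h2 : ∀ᶠ r : ℕ in atTop,
      9 / 10 < (Nat.primeCounting (2 * r) : ℝ) * Real.log (2 * r : ℕ) / (2 * r : ℕ) :=
    hB.eventually_const_lt (by norm_num)
  filter_upwards [h1, h2, log_ge 10, eventually_ge_atTop 1] with r h1 h2 h3 h4
  have hr : (0 : ℝ) < r := by exact_mod_cast h4
  have hL : 0 < Real.log r := by linarith
  have h5 : Real.log (2 * r : ℕ) ≤ 11 / 10 * Real.log r := by
    push_cast
    rw [Real.log_mul (by norm_num) hr.ne']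
    have := Real.log_two_lt_d9
    linarith
  have h6 : (Nat.primeCounting r : ℝ) ≤ 11 / 10 * r / Real.log r := by
    rw [le_div_iff₀ hL]
    rw [div_lt_iff₀ hr] at h1
    exact h1.le
  have h7 : 9 / 10 * (2 * r) / (11 / 10 * Real.log r) ≤ (Nat.primeCounting (2 * r) : ℝ) := by
    rw [div_le_iff₀ (by positivity)]
    have h8 : (0 : ℝ) < (2 * r : ℕ) := by push_cast; positivity
    rw [lt_div_iff₀ h8] at h2
    push_cast at h2 h5
    calc 9 / 10 * (2 * (r : ℝ)) ≤ (Nat.primeCounting (2 * r) : ℝ) * Real.log (2 * r) := h2.le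
      _ ≤ (Nat.primeCounting (2 * r) : ℝ) * (11 / 10 * Real.log r) :=
        mul_le_mul_of_nonneg_left h5 (Nat.cast_nonneg _)
  have h9 : (Nat.primeCounting (2 * r) : ℝ) ≤ Nat.primeCounting r + (pr r (2 * r)).card := by
    exact_mod_cast primeCounting_le r
  have h10 : 9 / 10 * (2 * (r : ℝ)) / (11 / 10 * Real.log r) - 11 / 10 * r / Real.log r
      ≤ ((pr r (2 * r)).card : ℝ) := by linarith
  refine le_trans ?_ h10
  have e1 : 9 / 10 * (2 * (r : ℝ)) / (11 / 10 * Real.log r) = 18 / 11 * (r / Real.log r) := by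
    field_simp; norm_num
  have e2 : 11 / 10 * (r : ℝ) / Real.log r = 11 / 10 * (r / Real.log r) := by ring
  have e3 : (r : ℝ) / (2 * Real.log r) = 1 / 2 * (r / Real.log r) := by field_simp
  rw [e1, e2, e3]
  have : 0 < (r : ℝ) / Real.log r := by positivity
  nlinarith

/-- choice of `K0` -/
lemma choice (δ E : ℝ) (hδ : 0 < δ) (hE : 0 < E) : ∃ K0 : ℕ, 4 ≤ K0 ∧ ∀ K : ℕ, K0 ≤ K →
    E / K < 1 ∧ (1 + δ / 2) * (E / K) ≤ 1 / 2 ∧
    (1 + δ / 2) * (E / K) + ((1 + δ / 2) * (E / K)) ^ 2 ≤ (1 + δ) * (E / K) := by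
  obtain ⟨K1, hK1⟩ := exists_nat_ge (E * (2 * (1 + δ / 2) + 2 * (1 + δ / 2) ^ 2 / δ) + 1)
  refine ⟨max 4 K1, le_max_left _ _, fun K hK => ?_⟩
  have hK2 : E * (2 * (1 + δ / 2) + 2 * (1 + δ / 2) ^ 2 / δ) + 1 ≤ (K : ℝ) :=
    hK1.trans (by exact_mod_cast (le_max_right _ _).trans hK)
  have hp : 0 < E * (2 * (1 + δ / 2) + 2 * (1 + δ / 2) ^ 2 / δ) := by positivity
  have hK0 : (0 : ℝ) < K := by linarith
  set y : ℝ := E / K with hy
  have hy0 : 0 < y := by positivity
  have hyK : y * (2 * (1 + δ / 2) + 2 * (1 + δ / 2) ^ 2 / δ) ≤ 1 := by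
    rw [hy, div_mul_eq_mul_div, div_le_one hK0]
    linarith
  have h1 : y * (2 * (1 + δ / 2)) ≤ 1 := by
    have : 0 ≤ y * (2 * (1 + δ / 2) ^ 2 / δ) := by positivity
    linarith [mul_add y (2 * (1 + δ / 2)) (2 * (1 + δ / 2) ^ 2 / δ)]
  have h2 : y * (2 * (1 + δ / 2) ^ 2 / δ) ≤ 1 := by
    have : 0 ≤ y * (2 * (1 + δ / 2)) := by positivity
    linarith [mul_add y (2 * (1 + δ / 2)) (2 * (1 + δ / 2) ^ 2 / δ)]
  refine ⟨by nlinarith, by linarith, ?_⟩
  have h3 : y * (1 + δ / 2) ^ 2 ≤ δ / 2 := by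
    have h4 : y * (2 * (1 + δ / 2) ^ 2 / δ) = (y * (1 + δ / 2) ^ 2) * (2 / δ) := by ring
    rw [h4] at h2
    have h5 : (y * (1 + δ / 2) ^ 2) * (2 / δ) * (δ / 2) ≤ 1 * (δ / 2) :=
      mul_le_mul_of_nonneg_right h2 (by positivity)
    have h6 : (y * (1 + δ / 2) ^ 2) * (2 / δ) * (δ / 2) = y * (1 + δ / 2) ^ 2 := by
      field_simp
    linarith
  nlinarith

/-- choice of `d` -/
lemma choice_d (δ y : ℝ) (hδ : 0 < δ) (hy : 0 < y) : ∃ d : ℝ, 0 < d ∧ d < 1 ∧
    Real.exp (-((1 - d) * (-Real.log y - d))) ≤ (1 + δ / 2) * y := by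
  have hc : Continuous fun d : ℝ => Real.exp (-((1 - d) * (-Real.log y - d))) := by fun_prop
  have h0 : Real.exp (-((1 - (0 : ℝ)) * (-Real.log y - 0))) < (1 + δ / 2) * y := by
    have : -((1 - (0 : ℝ)) * (-Real.log y - 0)) = Real.log y := by ring
    rw [this, Real.exp_log hy]
    nlinarith
  have h1 : ∀ᶠ d : ℝ in 𝓝 0, Real.exp (-((1 - d) * (-Real.log y - d))) < (1 + δ / 2) * y :=
    hc.continuousAt.eventually_lt_const h0
  have h2 : ∀ᶠ d : ℝ in 𝓝[>] 0, Real.exp (-((1 - d) * (-Real.log y - d))) < (1 + δ / 2) * y :=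
    h1.filter_mono nhdsWithin_le_nhds
  have h3 : ∀ᶠ d : ℝ in 𝓝[>] 0, d ∈ Set.Ioo (0 : ℝ) 1 := Ioo_mem_nhdsGT one_pos
  obtain ⟨d, hd1, hd2⟩ := (h2.and h3).exists
  exact ⟨d, hd2.1, hd2.2, hd1.le⟩

lemma exp_le (x : ℝ) (h0 : 0 ≤ x) (h1 : x ≤ 1 / 2) (j : ℕ) :
    Real.exp (-((x + x ^ 2) * j)) ≤ (1 - x) ^ j := by
  have h2 : Real.exp (-(x + x ^ 2)) ≤ 1 - x := by
    -- log (1 - x) ≥ -x/(1-x)?? use exp (x + x^2) * (1 - x) >= 1
    have h3 : 1 ≤ Real.exp (x + x ^ 2) * (1 - x) := by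
      have h4 : 1 + (x + x ^ 2) + (x + x ^ 2) ^ 2 / 2 ≤ Real.exp (x + x ^ 2) :=
        Real.quadratic_le_exp_of_nonneg (by positivity)
      have h5 : (1 + (x + x ^ 2) + (x + x ^ 2) ^ 2 / 2) * (1 - x) ≤ Real.exp (x + x ^ 2) * (1 - x) :=
        mul_le_mul_of_nonneg_right h4 (by linarith)
      refine le_trans ?_ h5
      have : (1 + (x + x ^ 2) + (x + x ^ 2) ^ 2 / 2) * (1 - x) - 1
          = x ^ 2 * (1 / 2 - x / 2 - x ^ 2 / 2 - x ^ 3 / 2) := by ring
      have h6 : 0 ≤ 1 / 2 - x / 2 - x ^ 2 / 2 - x ^ 3 / 2 := by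
        have : x ^ 2 ≤ 1 / 4 := by nlinarith
        have : x ^ 3 ≤ 1 / 8 := by
          calc x ^ 3 = x * x ^ 2 := by ring
            _ ≤ 1 / 2 * (1 / 4) := by
              apply mul_le_mul h1 this (by positivity) (by norm_num)
            _ = 1 / 8 := by norm_num
        linarith
      have h7 := mul_nonneg (sq_nonneg x) h6
      linarith
    rw [Real.exp_neg, inv_le_iff_one_le_mul₀ (Real.exp_pos _)]
    linarith [mul_comm (Real.exp (x + x ^ 2)) (1 - x)]
  have h8 : Real.exp (-((x + x ^ 2) * j)) = Real.exp (-(x + x ^ 2)) ^ j := by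
    rw [← Real.exp_nat_mul]; congr 1; ring
  rw [h8]
  exact pow_le_pow_left₀ (Real.exp_nonneg _) h2 j

theorem num1 (_h1 : FB1G) (h2 : FB2G) (h3 : FLOWG) (h4 : MERTG) : NUM1G := by
  intro δ hδ
  have hE0 : 0 < Real.exp Real.eulerMascheroniConstant := Real.exp_pos _
  obtain ⟨K0, hK04, hK0⟩ := choice δ _ hδ hE0
  refine ⟨K0, fun K hK Z hZ => ?_⟩
  obtain ⟨hy1, hx1, hx2⟩ := hK0 K hK
  have hKpos : (0 : ℝ) < K := by
    have : 0 < K := by omega
    exact_mod_cast this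
  set y : ℝ := Real.exp Real.eulerMascheroniConstant / K with hy
  have hy0 : 0 < y := by positivity
  obtain ⟨d, hd0, hd1, hd2⟩ := choice_d δ y hδ hy0
  set x : ℝ := (1 + δ / 2) * y with hx
  have hx0 : 0 < x := by positivity
  obtain ⟨hm1, hm2, _⟩ := h4.2 Z hZ K (by omega)
  have hly : Real.log (K * Real.exp (-Real.eulerMascheroniConstant)) = -Real.log y := by
    rw [← Real.log_inv, hy, inv_div, Real.exp_neg]
    rfl
  rw [hly] at hm2
  have hm3 : ∀ᶠ r : ℕ in atTop, -Real.log y - d / 2 < ∑ p ∈ pr r (Z (r ^ K)), 1 / (p : ℝ) :=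
    hm2.eventually_const_lt (by linarith)
  filter_upwards [hm1, hm3, many_primes, log_ge 1, log_ge (1 / d), log_pow_le 4 9,
    log_pow_le 12 4, log_pow_le (32 / d + 4) 4, log_pow_le (4 / d) 7,
    eventually_ge_atTop 2] with r hZ2 hsum hmany hL1 hL2 hA hB hC hD hr2 S' hS' hcard j hj
  set L : ℝ := Real.log r with hLdef
  have hL0 : 0 < L := by linarith
  have hr0 : (0 : ℝ) < r := by
    have : 0 < r := by omega
    exact_mod_cast this
  have hLsq : 1 ≤ L ^ 2 := by nlinarith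
  -- the parameters
  set k : ℕ := ⌊(r : ℝ) / (4 * L ^ 2)⌋₊ with hk
  set M : ℕ := ⌊L ^ 2⌋₊ with hM
  have hk1 : (k : ℝ) ≤ r / (4 * L ^ 2) := Nat.floor_le (by positivity)
  have hk2 : (r : ℝ) / (4 * L ^ 2) - 1 < k := by
    have := Nat.lt_floor_add_one ((r : ℝ) / (4 * L ^ 2))
    linarith
  have hM1 : (M : ℝ) ≤ L ^ 2 := Nat.floor_le (by positivity)
  have hL4 : L ^ 2 ≤ L ^ 4 := by nlinarith [sq_nonneg (L ^ 2)]
  -- 2 M ≤ k
  have hMk : 2 * M ≤ k := by
    have h5 : 2 * L ^ 2 ≤ (r : ℝ) / (4 * L ^ 2) - 1 := by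
      rw [le_sub_iff_add_le, le_div_iff₀ (by positivity)]
      have : (2 * L ^ 2 + 1) * (4 * L ^ 2) = 8 * L ^ 4 + 4 * L ^ 2 := by ring
      rw [this]
      linarith
    have h6 : (2 * M : ℝ) < k := by linarith
    have h7 : ((2 * M : ℕ) : ℝ) < k := by push_cast; exact h6
    exact_mod_cast h7.le
  -- M ≤ d k / 8
  have hMd : (M : ℝ) ≤ d / 8 * k := by
    have h5 : L ^ 2 ≤ d / 8 * ((r : ℝ) / (4 * L ^ 2) - 1) := by
      have h6 : 8 / d * L ^ 2 ≤ (r : ℝ) / (4 * L ^ 2) - 1 := by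
        rw [le_sub_iff_add_le, le_div_iff₀ (by positivity)]
        have : (8 / d * L ^ 2 + 1) * (4 * L ^ 2) = 32 / d * L ^ 4 + 4 * L ^ 2 := by ring
        rw [this]
        have e : (32 / d + 4) * L ^ 4 = 32 / d * L ^ 4 + 4 * L ^ 4 := by ring
        linarith
      have h7 := mul_le_mul_of_nonneg_left h6 (by positivity : 0 ≤ d / 8)
      have e : d / 8 * (8 / d * L ^ 2) = L ^ 2 := by field_simp
      linarith
    have h8 := mul_le_mul_of_nonneg_left hk2.le (by positivity : 0 ≤ d / 8)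
    linarith
  -- choose S0
  have hsub : pr r (2 * r) ⊆ pr r (Z (r ^ K)) := by
    intro p hp
    simp only [pr, mem_filter, mem_Ioc] at hp ⊢
    refine ⟨⟨hp.1.1, ?_⟩, hp.2⟩
    have : 2 * r ≤ r ^ 2 := by nlinarith
    omega
  have hT : k ≤ (S' ∩ pr r (2 * r)).card := by
    have h5 : pr r (2 * r) ⊆ (S' ∩ pr r (2 * r)) ∪ (pr r (Z (r ^ K)) \ S') := by
      intro p hp
      simp only [mem_union, mem_inter, Finset.mem_sdiff]
      by_cases hpS : p ∈ S'
      · exact Or.inl ⟨hpS, hp⟩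
      · exact Or.inr ⟨hsub hp, hpS⟩
    have h6 : (pr r (2 * r)).card ≤ (S' ∩ pr r (2 * r)).card + (pr r (Z (r ^ K)) \ S').card :=
      (card_le_card h5).trans (card_union_le _ _)
    have h7 : ((pr r (2 * r)).card : ℝ) ≤ (S' ∩ pr r (2 * r)).card + (pr r (Z (r ^ K)) \ S').card := by
      exact_mod_cast h6
    have h8 : (r : ℝ) / (4 * L ^ 2) + L ^ 7 ≤ r / (2 * L) := by
      rw [div_add' _ _ _ (by positivity), div_le_div_iff₀ (by positivity) (by positivity)]
      have e1 : ((r : ℝ) + L ^ 7 * (4 * L ^ 2)) * (2 * L) = 2 * L * (r + 4 * L ^ 9) := by ring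
      have e2 : (r : ℝ) * (4 * L ^ 2) = 2 * L * (2 * L * r) := by ring
      rw [e1, e2]
      apply mul_le_mul_of_nonneg_left _ (by positivity)
      nlinarith
    have h9 : (k : ℝ) ≤ (S' ∩ pr r (2 * r)).card := by linarith
    exact_mod_cast h9
  obtain ⟨S0, hS0, hS0c⟩ := exists_subset_card_eq hT
  have hS0S : S0 ⊆ S' := hS0.trans inter_subset_left
  -- the lists
  have hperm : (S'.toList.map (fu 1)).Perm ((S' \ S0).toList.map (fu 1) ++ S0.toList.map (fu 1)) := by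
    rw [← List.map_append]
    apply List.Perm.map
    apply List.perm_of_nodup_nodup_toFinset_eq (nodup_toList _)
    · apply List.Nodup.append (nodup_toList _) (nodup_toList _)
      intro p hp hp'
      rw [mem_toList] at hp hp'
      exact (Finset.mem_sdiff.mp hp).2 hp'
    · ext p
      simp only [List.mem_toFinset, List.mem_append, mem_toList, Finset.mem_sdiff]
      constructor
      · intro h
        by_cases hp : p ∈ S0
        · exact Or.inr hp
        · exact Or.inl ⟨h, hp⟩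
      · rintro (h | h)
        · exact h.1
        · exact hS0S h
  have hFS : FS (fu 1) S' j = FL ((S' \ S0).toList.map (fu 1) ++ S0.toList.map (fu 1)) j :=
    h2.1 _ _ j hperm
  have hlen : (S0.toList.map (fu 1)).length = k := by
    rw [List.length_map, length_toList, hS0c]
  have hsumL : ((S' \ S0).toList.map (fu 1)).sum = ∑ p ∈ S' \ S0, fu 1 p := sum_map_toList _ _
  have hprr : ∀ p ∈ S', r + 1 ≤ p := by
    intro p hp
    have := hS' hp
    simp only [pr, mem_filter, mem_Ioc] at this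
    omega
  have hfu : ∀ p : ℕ, r + 1 ≤ p → 0 ≤ fu 1 p ∧ fu 1 p ≤ 1 / r ∧ 1 / (p : ℝ) ≤ fu 1 p := by
    intro p hp
    have hp' : (r : ℝ) + 1 ≤ p := by exact_mod_cast hp
    have h5 : (0 : ℝ) < (p : ℝ) - 1 := by linarith
    have e : fu 1 p = 1 / ((p : ℝ) - 1) := by unfold fu; norm_num
    rw [e]
    refine ⟨by positivity, ?_, ?_⟩
    · exact one_div_le_one_div_of_le hr0 (by linarith)
    · exact one_div_le_one_div_of_le h5 (by linarith)
  have hjM : j ≤ M := Nat.le_floor hj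
  have hlow := h3 (S0.toList.map (fu 1)) ((S' \ S0).toList.map (fu 1)) M (1 / (2 * r)) (1 / r) d
    (by positivity) hd0 hd1 (by
      intro z hz
      rw [List.mem_map] at hz
      obtain ⟨p, hp, rfl⟩ := hz
      rw [mem_toList] at hp
      have hp1 := hprr p (hS0S hp)
      refine ⟨?_, (hfu p hp1).2.1⟩
      have hp2 := hS0 hp
      simp only [pr, mem_inter, mem_filter, mem_Ioc] at hp2
      have hp3 : (p : ℝ) ≤ 2 * r := by exact_mod_cast hp2.2.1.2
      have hp' : (r : ℝ) + 1 ≤ p := by exact_mod_cast hp1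
      have e : fu 1 p = 1 / ((p : ℝ) - 1) := by unfold fu; norm_num
      rw [e]
      exact one_div_le_one_div_of_le (by linarith) (by linarith)) (by
      intro z hz
      rw [List.mem_map] at hz
      obtain ⟨p, hp, rfl⟩ := hz
      rw [mem_toList] at hp
      have hp1 := hprr p (Finset.mem_sdiff.mp hp).1
      exact ⟨(hfu p hp1).1, (hfu p hp1).2.1⟩) (by rw [hlen]; exact hMk) (by
      rw [hlen]
      have h5 : (k : ℝ) * (1 / r) ≤ 1 / (4 * L ^ 2) := by
        have := mul_le_mul_of_nonneg_right hk1 (by positivity : (0 : ℝ) ≤ 1 / r)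
        refine this.trans_eq ?_
        field_simp
      calc (M : ℝ) * (k * (1 / r)) ≤ L ^ 2 * (1 / (4 * L ^ 2)) := by
            apply mul_le_mul hM1 h5 (by positivity) (by positivity)
        _ = 1 / 4 := by field_simp
        _ ≤ 1 / 2 := by norm_num) (by
      rw [hlen]
      have e : d * ((k : ℝ) * (1 / (2 * r)) / 4) = (d / 8 * k) * (1 / r) := by ring
      rw [e]
      exact mul_le_mul_of_nonneg_right hMd (by positivity)) j hjM
  rw [hFS]
  refine le_trans ?_ hlow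
  rw [hsumL]
  -- the sum
  have hS : -Real.log y - d ≤ ∑ p ∈ S' \ S0, fu 1 p := by
    have h5 : ∑ p ∈ pr r (Z (r ^ K)), 1 / (p : ℝ)
        = ∑ p ∈ S' \ S0, 1 / (p : ℝ) + ∑ p ∈ pr r (Z (r ^ K)) \ (S' \ S0), 1 / (p : ℝ) := by
      rw [add_comm]
      exact (sum_sdiff (sdiff_subset.trans hS')).symm
    have h6 : ∑ p ∈ pr r (Z (r ^ K)) \ (S' \ S0), 1 / (p : ℝ)
        ≤ ((pr r (Z (r ^ K)) \ (S' \ S0)).card : ℝ) * (1 / r) := by
      rw [← nsmul_eq_mul]
      apply sum_le_card_nsmul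
      intro p hp
      have hp1 := (Finset.mem_sdiff.mp hp).1
      simp only [pr, mem_filter, mem_Ioc] at hp1
      exact one_div_le_one_div_of_le hr0 (by exact_mod_cast hp1.1.1.le)
    have h7 : ((pr r (Z (r ^ K)) \ (S' \ S0)).card : ℝ) ≤ L ^ 7 + k := by
      have h8 : pr r (Z (r ^ K)) \ (S' \ S0) ⊆ (pr r (Z (r ^ K)) \ S') ∪ S0 := by
        intro p hp
        simp only [mem_union, Finset.mem_sdiff] at hp ⊢
        by_cases hp0 : p ∈ S0
        · exact Or.inr hp0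
        · exact Or.inl ⟨hp.1, fun h => hp.2 ⟨h, hp0⟩⟩
      have h9 : (pr r (Z (r ^ K)) \ (S' \ S0)).card ≤ (pr r (Z (r ^ K)) \ S').card + S0.card :=
        (card_le_card h8).trans (card_union_le _ _)
      have h10 : ((pr r (Z (r ^ K)) \ (S' \ S0)).card : ℝ)
          ≤ (pr r (Z (r ^ K)) \ S').card + S0.card := by exact_mod_cast h9
      rw [hS0c] at h10
      linarith
    have h11 : (L ^ 7 + k) * (1 / r) ≤ d / 2 := by
      have h12 : L ^ 7 ≤ d / 4 * r := by
        have := mul_le_mul_of_nonneg_left hD (by positivity : 0 ≤ d / 4)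
        have e : d / 4 * (4 / d * L ^ 7) = L ^ 7 := by field_simp
        linarith
      have h13 : (k : ℝ) ≤ d / 4 * r := by
        refine hk1.trans ?_
        rw [div_le_iff₀ (by positivity)]
        have h14 : 1 ≤ d * L ^ 2 := by
          have h15 : 1 / d ≤ L ^ 2 := by nlinarith
          rw [div_le_iff₀ hd0] at h15
          linarith
        nlinarith
      rw [mul_one_div, div_le_iff₀ hr0]
      linarith
    have h16 : ∑ p ∈ S' \ S0, 1 / (p : ℝ) ≤ ∑ p ∈ S' \ S0, fu 1 p :=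
      sum_le_sum fun p hp => (hfu p (hprr p (Finset.mem_sdiff.mp hp).1)).2.2
    have h17 := mul_le_mul_of_nonneg_right h7 (by positivity : (0 : ℝ) ≤ 1 / r)
    linarith
  have hbase : 1 - x ≤ 1 - Real.exp (-((1 - d) * ∑ p ∈ S' \ S0, fu 1 p)) := by
    have h5 : Real.exp (-((1 - d) * ∑ p ∈ S' \ S0, fu 1 p))
        ≤ Real.exp (-((1 - d) * (-Real.log y - d))) := by
      apply Real.exp_le_exp.mpr
      have := mul_le_mul_of_nonneg_left hS (by linarith : 0 ≤ 1 - d)
      linarith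
    linarith
  calc Real.exp (-((1 + δ) * y * j)) ≤ Real.exp (-((x + x ^ 2) * j)) := by
        apply Real.exp_le_exp.mpr
        have := mul_le_mul_of_nonneg_right hx2 (Nat.cast_nonneg (α := ℝ) j)
        linarith
    _ ≤ (1 - x) ^ j := exp_le x hx0.le hx1 j
    _ ≤ _ := pow_le_pow_left₀ (by linarith) hbase j

end Pool.Agent.Helper53.CR
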